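import Mathlib

open CategoryTheory TensorProduct

namespace Pool.Agent.Results.MP_52d248_al.Rationalization

universe u

/-- `(L, η)` is a localization functor on groups: `L(η_G)` and `η_{LG}` are equal isomorphisms. -/
structure IsLocalization (L : GrpCat.{u} ⥤ GrpCat.{u}) (η : 𝟭 GrpCat.{u} ⟶ L) : Prop where
  eq : ∀ G : GrpCat.{u}, L.map (η.app G) = η.app (L.obj G)
  iso : ∀ G : GrpCat.{u}, IsIso (L.map (η.app G))

/-- `L` is an epireflection: `η_G : G → LG` is surjective for every group `G`. -/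
def IsEpireflection (L : GrpCat.{u} ⥤ GrpCat.{u}) (η : 𝟭 GrpCat.{u} ⟶ L) : Prop :=
  ∀ G : GrpCat.{u}, Function.Surjective (η.app G).hom

/-- `1 → N → E → G → 1` is a short exact sequence of groups. -/
structure ShortExact {N E G : GrpCat.{u}} (i : N ⟶ E) (p : E ⟶ G) : Prop where
  inj : Function.Injective i.hom
  exact : i.hom.range = p.hom.ker
  surj : Function.Surjective p.hom

/-- `E'` with the homomorphisms `q : E' → E`, `p' : E' → H` is the pullback `E ×_G H` of
`p : E → G` and `h : H → G`. -/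
structure IsPull {E G H E' : GrpCat.{u}} (p : E ⟶ G) (h : H ⟶ G) (q : E' ⟶ E) (p' : E' ⟶ H) :
    Prop where
  comm : ∀ y, p.hom (q.hom y) = h.hom (p'.hom y)
  unique : ∀ e x, p.hom e = h.hom x → ∃! y, q.hom y = e ∧ p'.hom y = x

/-- `L` is conditionally flat: if the extension `1 → N → E → G → 1` is `L`-flat, then for every
homomorphism `h : H → G` the pulled back extension `1 → N → E ×_G H → H → 1` is `L`-flat. -/
def ConditionallyFlat (L : GrpCat.{u} ⥤ GrpCat.{u}) : Prop :=
  ∀ (N E G H E' : GrpCat.{u}) (i : N ⟶ E) (p : E ⟶ G) (h : H ⟶ G) (q : E' ⟶ E) (p' : E' ⟶ H)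
    (i' : N ⟶ E'), ShortExact i p → ShortExact (L.map i) (L.map p) → IsPull p h q p' →
    (∀ n, q.hom (i'.hom n) = i.hom n) → (∀ n, p'.hom (i'.hom n) = 1) →
    ShortExact i' p' ∧ ShortExact (L.map i') (L.map p')

/-- `ℚ ⊗ G_ab`, written additively. -/
abbrev A (G : Type u) [Group G] : Type u := ℚ ⊗[ℤ] Additive (Abelianization G)

/-- the map on abelianizations, additively -/
noncomputable def abMap {G H : Type u} [Group G] [Group H] (f : G →* H) :
    Additive (Abelianization G) →ₗ[ℤ] Additive (Abelianization H) :=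
  (MonoidHom.toAdditive (Abelianization.map f)).toIntLinearMap

theorem abMap_of {G H : Type u} [Group G] [Group H] (f : G →* H) (g : G) :
    abMap f (Additive.ofMul (Abelianization.of g)) = Additive.ofMul (Abelianization.of (f g)) := rfl

theorem ab_surj {G : Type u} [Group G] (x : Additive (Abelianization G)) :
    ∃ g : G, Additive.ofMul (Abelianization.of g) = x := by
  obtain ⟨g, hg⟩ := QuotientGroup.mk_surjective (Additive.toMul x)
  exact ⟨g, congrArg Additive.ofMul hg⟩

theorem abMap_ext {G : Type u} [Group G] {M : Type u} [AddCommGroup M]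
    {f g : Additive (Abelianization G) →ₗ[ℤ] M}
    (h : ∀ x : G, f (Additive.ofMul (Abelianization.of x)) =
      g (Additive.ofMul (Abelianization.of x))) : f = g := by
  ext x
  obtain ⟨y, rfl⟩ := ab_surj x
  exact h y

/-- `ℚ ⊗ f_ab` -/
noncomputable def AMap {G H : Type u} [Group G] [Group H] (f : G →* H) : A G →ₗ[ℤ] A H :=
  (abMap f).lTensor ℚ

theorem AMap_tmul {G H : Type u} [Group G] [Group H] (f : G →* H) (r : ℚ) (g : G) :
    AMap f (r ⊗ₜ Additive.ofMul (Abelianization.of g)) =
      r ⊗ₜ Additive.ofMul (Abelianization.of (f g)) := rfl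

theorem A_ext {G : Type u} [Group G] {M : Type u} [AddCommGroup M] {f g : A G →ₗ[ℤ] M}
    (h : ∀ (r : ℚ) (x : G), f (r ⊗ₜ Additive.ofMul (Abelianization.of x)) =
      g (r ⊗ₜ Additive.ofMul (Abelianization.of x))) : f = g := by
  apply TensorProduct.ext'
  intro r x
  obtain ⟨y, rfl⟩ := ab_surj x
  exact h r y

theorem AMap_id (G : Type u) [Group G] : AMap (MonoidHom.id G) = LinearMap.id :=
  A_ext fun _ _ => rfl

theorem AMap_comp {X Y Z : Type u} [Group X] [Group Y] [Group Z] (f : X →* Y) (g : Y →* Z) :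
    AMap (g.comp f) = (AMap g).comp (AMap f) := A_ext fun _ _ => rfl

/-- `ℚ ⊗ f_ab`, written multiplicatively -/
noncomputable def MMap {G H : Type u} [Group G] [Group H] (f : G →* H) :
    Multiplicative (A G) →* Multiplicative (A H) :=
  AddMonoidHom.toMultiplicative (AMap f).toAddMonoidHom

theorem MMap_apply {G H : Type u} [Group G] [Group H] (f : G →* H) (x : Multiplicative (A G)) :
    MMap f x = Multiplicative.ofAdd (AMap f (Multiplicative.toAdd x)) := rfl

/-- the functor `G ↦ ℚ ⊗ G_ab` (written multiplicatively) -/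
noncomputable def L : GrpCat.{u} ⥤ GrpCat.{u} where
  obj G := GrpCat.of (Multiplicative (A G))
  map f := GrpCat.ofHom (MMap f.hom)
  map_id G := by
    apply GrpCat.hom_ext
    apply MonoidHom.ext
    intro x
    change MMap (MonoidHom.id G) x = x
    rw [MMap_apply, AMap_id]
    rfl
  map_comp {X Y Z} f g := by
    apply GrpCat.hom_ext
    apply MonoidHom.ext
    intro x
    change MMap (g.hom.comp f.hom) x = MMap g.hom (MMap f.hom x)
    rw [MMap_apply, AMap_comp]
    rfl

/-- the homomorphism `G → ℚ ⊗ G_ab`, `g ↦ 1 ⊗ g` -/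
noncomputable def unitHom (G : Type u) [Group G] : G →* Multiplicative (A G) where
  toFun g := Multiplicative.ofAdd ((1 : ℚ) ⊗ₜ Additive.ofMul (Abelianization.of g))
  map_one' := by
    rw [map_one, ofMul_one, TensorProduct.tmul_zero]
    rfl
  map_mul' x y := by
    rw [map_mul, ofMul_mul, TensorProduct.tmul_add]
    rfl

/-- the unit of the functor `L` -/
noncomputable def η : 𝟭 GrpCat.{u} ⟶ L.{u} where
  app G := GrpCat.ofHom (unitHom G)
  naturality X Y f := by
    ext x
    rfl

theorem key {M W : Type u} [AddCommGroup M] [AddCommGroup W] (e : ℚ ⊗[ℤ] M →ₗ[ℤ] W) (r : ℚ)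
    (m : M) : (r ⊗ₜ[ℤ] e (1 ⊗ₜ m) : ℚ ⊗[ℤ] W) = 1 ⊗ₜ e (r ⊗ₜ m) := by
  have hb : (r.den : ℚ) ≠ 0 := by exact_mod_cast r.den_nz
  have h1 : (r.den : ℤ) • (r ⊗ₜ[ℤ] m : ℚ ⊗[ℤ] M) = r.num • ((1 : ℚ) ⊗ₜ m) := by
    rw [TensorProduct.smul_tmul', TensorProduct.smul_tmul']
    congr 1
    rw [zsmul_eq_mul, zsmul_eq_mul, mul_one]
    push_cast
    rw [mul_comm]
    exact Rat.mul_den_eq_num r
  have h2 : (1 : ℚ) = (r.den : ℤ) • (1 / (r.den : ℚ)) := by
    rw [zsmul_eq_mul]
    push_cast
    field_simp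
  have h3 : r = r.num • (1 / (r.den : ℚ)) := by
    rw [zsmul_eq_mul, mul_one_div]
    exact (Rat.num_div_den r).symm
  calc (r ⊗ₜ[ℤ] e (1 ⊗ₜ m) : ℚ ⊗[ℤ] W)
      = (r.num • (1 / (r.den : ℚ))) ⊗ₜ[ℤ] e (1 ⊗ₜ m) := by rw [← h3]
    _ = (1 / (r.den : ℚ)) ⊗ₜ[ℤ] (r.num • e (1 ⊗ₜ m)) := TensorProduct.smul_tmul _ _ _
    _ = (1 / (r.den : ℚ)) ⊗ₜ[ℤ] ((r.den : ℤ) • e (r ⊗ₜ m)) := by
        rw [← e.map_smul, ← h1, e.map_smul]
    _ = ((r.den : ℤ) • (1 / (r.den : ℚ))) ⊗ₜ[ℤ] e (r ⊗ₜ m) :=
        (TensorProduct.smul_tmul _ _ _).symm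
    _ = 1 ⊗ₜ e (r ⊗ₜ m) := by rw [← h2]

/-- `V → (V written multiplicatively)_ab` -/
noncomputable def toAb (V : Type u) [AddCommGroup V] :
    V →ₗ[ℤ] Additive (Abelianization (Multiplicative V)) :=
  (AddMonoidHom.mk' (fun v => Additive.ofMul (Abelianization.of (Multiplicative.ofAdd v)))
    (fun a b => by rw [ofAdd_add, map_mul, ofMul_mul])).toIntLinearMap

theorem toAb_apply {V : Type u} [AddCommGroup V] (v : V) :
    toAb V v = Additive.ofMul (Abelianization.of (Multiplicative.ofAdd v)) := rfl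

/-- `(V written multiplicatively)_ab → V` -/
noncomputable def fromAb (V : Type u) [AddCommGroup V] :
    Additive (Abelianization (Multiplicative V)) →ₗ[ℤ] V :=
  (MonoidHom.toAdditive (Abelianization.lift
    (MonoidHom.id (Multiplicative V)))).toIntLinearMap

theorem fromAb_toAb {V : Type u} [AddCommGroup V] (v : V) : fromAb V (toAb V v) = v := rfl

theorem AMap_unit {G : Type u} [Group G] (r : ℚ) (g : G) :
    AMap (unitHom G) (r ⊗ₜ Additive.ofMul (Abelianization.of g)) =
      r ⊗ₜ toAb (A G) ((1 : ℚ) ⊗ₜ Additive.ofMul (Abelianization.of g)) := rfl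

/-- multiplication `ℚ ⊗ V → V` for a rational vector space `V` -/
noncomputable def mulQ (V : Type u) [AddCommGroup V] [Module ℚ V] : ℚ ⊗[ℤ] V →ₗ[ℤ] V :=
  TensorProduct.lift (LinearMap.mk₂ ℤ (fun (r : ℚ) (v : V) => r • v)
    (fun _ _ _ => add_smul _ _ _) (fun c r v => by
      rw [zsmul_eq_mul, mul_smul, Int.cast_smul_eq_zsmul])
    (fun _ _ _ => smul_add _ _ _) (fun c r v => by
      rw [smul_comm]))

theorem AMap_unit_injective (G : Type u) [Group G] : Function.Injective (AMap (unitHom G)) := by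
  have h : ((mulQ (A G)).comp ((fromAb (A G)).lTensor ℚ)).comp (AMap (unitHom G)) =
      LinearMap.id := by
    apply A_ext
    intro r x
    change r • ((1 : ℚ) ⊗ₜ[ℤ] Additive.ofMul (Abelianization.of x)) = _
    rw [TensorProduct.smul_tmul', smul_eq_mul, mul_one]
    rfl
  intro x y hxy
  have h1 : mulQ (A G) ((fromAb (A G)).lTensor ℚ (AMap (unitHom G) x)) = x :=
    LinearMap.congr_fun h x
  have h2 : mulQ (A G) ((fromAb (A G)).lTensor ℚ (AMap (unitHom G) y)) = y :=
    LinearMap.congr_fun h y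
  rw [hxy, h2] at h1
  exact h1.symm

theorem toAb_surjective (V : Type u) [AddCommGroup V] : Function.Surjective (toAb V) := by
  intro x
  obtain ⟨g, rfl⟩ := ab_surj x
  exact ⟨Multiplicative.toAdd g, rfl⟩

theorem AMap_unit_surjective (G : Type u) [Group G] : Function.Surjective (AMap (unitHom G)) := by
  rw [← LinearMap.range_eq_top, eq_top_iff]
  intro z _
  induction z using TensorProduct.induction_on with
  | zero => exact Submodule.zero_mem _
  | add x y hx hy => exact Submodule.add_mem _ (hx trivial) (hy trivial)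
  | tmul r y =>
    obtain ⟨v, rfl⟩ := toAb_surjective (A G) y
    induction v using TensorProduct.induction_on with
    | zero =>
      rw [map_zero, TensorProduct.tmul_zero]
      exact Submodule.zero_mem _
    | add x y hx hy =>
      rw [map_add, TensorProduct.tmul_add]
      exact Submodule.add_mem _ (hx trivial) (hy trivial)
    | tmul s m =>
      obtain ⟨g, rfl⟩ := ab_surj m
      refine ⟨(r * s) ⊗ₜ Additive.ofMul (Abelianization.of g), ?_⟩
      rw [AMap_unit]
      have h := key (toAb (A G)) s (Additive.ofMul (Abelianization.of g))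
      have h2 := congrArg (fun t => r • t) h
      simp only [TensorProduct.smul_tmul', smul_eq_mul, mul_one] at h2
      exact h2

theorem isLocalization : IsLocalization L.{u} η := by
  constructor
  · intro G
    apply GrpCat.hom_ext
    apply MonoidHom.ext
    intro x
    change Multiplicative.ofAdd (AMap (unitHom G) (Multiplicative.toAdd x)) =
      Multiplicative.ofAdd ((1 : ℚ) ⊗ₜ[ℤ] toAb (A G) (Multiplicative.toAdd x))
    congr 1
    have : AMap (unitHom G) = (TensorProduct.mk ℤ ℚ _ 1).comp (toAb (A G)) := by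
      apply A_ext
      intro r g
      rw [AMap_unit]
      exact key (toAb (A G)) r _
    rw [this]
    rfl
  · intro G
    rw [ConcreteCategory.isIso_iff_bijective]
    exact ⟨AMap_unit_injective G, AMap_unit_surjective G⟩

theorem abMap_exact {N E G : Type u} [Group N] [Group E] [Group G] (i : N →* E) (p : E →* G)
    (hex : i.range = p.ker) (hp : Function.Surjective p) :
    Function.Exact (abMap i) (abMap p) := by
  intro x
  constructor
  · intro hx
    obtain ⟨e, rfl⟩ := ab_surj x
    rw [abMap_of] at hx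
    have h1 : Abelianization.of (p e) = 1 := hx
    rw [← MonoidHom.mem_ker, Abelianization.ker_of] at h1
    have h2 : commutator G = (commutator E).map p := by
      rw [map_commutator_eq, MonoidHom.range_eq_top.mpr hp, commutator_def]
    rw [h2] at h1
    obtain ⟨c, hc, hce⟩ := h1
    have h3 : e * c⁻¹ ∈ i.range := by
      rw [hex, MonoidHom.mem_ker, map_mul, map_inv, hce, mul_inv_cancel]
    obtain ⟨n, hn⟩ := h3
    refine ⟨Additive.ofMul (Abelianization.of n), ?_⟩
    rw [abMap_of, hn]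
    congr 1
    rw [map_mul, map_inv]
    have h4 : (Abelianization.of c : Abelianization E) = 1 := by
      rw [← MonoidHom.mem_ker, Abelianization.ker_of]
      exact hc
    rw [h4, inv_one, mul_one]
  · rintro ⟨y, rfl⟩
    obtain ⟨n, rfl⟩ := ab_surj y
    rw [abMap_of, abMap_of]
    have h1 : p (i n) = 1 := by
      rw [← MonoidHom.mem_ker, ← hex]
      exact ⟨n, rfl⟩
    rw [h1, map_one, ofMul_one]

theorem abMap_surjective {E G : Type u} [Group E] [Group G] (p : E →* G)
    (hp : Function.Surjective p) : Function.Surjective (abMap p) := by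
  intro x
  obtain ⟨g, rfl⟩ := ab_surj x
  obtain ⟨e, rfl⟩ := hp g
  exact ⟨Additive.ofMul (Abelianization.of e), rfl⟩

theorem right_exact {N E G : GrpCat.{u}} (i : N ⟶ E) (p : E ⟶ G) (h : ShortExact i p) :
    (L.map i).hom.range = (L.map p).hom.ker ∧ Function.Surjective (L.map p).hom := by
  have h1 : Function.Surjective (AMap p.hom) :=
    LinearMap.lTensor_surjective _ (abMap_surjective p.hom h.surj)
  have h2 : Function.Exact (AMap i.hom) (AMap p.hom) :=
    lTensor_exact ℚ (abMap_exact i.hom p.hom h.exact h.surj) (abMap_surjective p.hom h.surj)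
  refine ⟨?_, h1⟩
  ext x
  exact (h2 (Multiplicative.toAdd x)).symm

theorem conditionallyFlat : ConditionallyFlat L.{u} := by
  intro N E G H E' i p h q p' i' hs hL hpull hq hp
  have hs' : ShortExact i' p' := by
    refine ⟨?_, ?_, ?_⟩
    · intro x y hxy
      apply hs.inj
      rw [← hq, ← hq, hxy]
    · ext y
      constructor
      · rintro ⟨n, rfl⟩
        exact hp n
      · intro hy
        have hy' : p'.hom y = 1 := hy
        have h1 : q.hom y ∈ i.hom.range := by
          rw [hs.exact, MonoidHom.mem_ker, hpull.comm, hy', map_one]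
        obtain ⟨n, hn⟩ := h1
        refine ⟨n, ?_⟩
        have h2 : p.hom (q.hom y) = h.hom 1 := by rw [hpull.comm, hy']
        exact (hpull.unique (q.hom y) 1 h2).unique ⟨by rw [hq, hn], hp n⟩ ⟨rfl, hy'⟩
    · intro x
      obtain ⟨e, he⟩ := hs.surj (h.hom x)
      obtain ⟨y, ⟨-, hy⟩, -⟩ := hpull.unique e x he
      exact ⟨y, hy⟩
  refine ⟨hs', ?_, (right_exact i' p' hs').1, (right_exact i' p' hs').2⟩
  have hcomp : i' ≫ q = i := by
    apply GrpCat.hom_ext
    apply MonoidHom.ext
    exact hq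
  have h1 := hL.inj
  rw [← hcomp, L.map_comp] at h1
  exact Function.Injective.of_comp (f := (L.map q).hom) h1

theorem not_epireflection : ¬ IsEpireflection L.{u} η := by
  intro h
  let Z := ULift.{u} (Multiplicative ℤ)
  obtain ⟨x, hx⟩ := h (GrpCat.of Z) (Multiplicative.ofAdd
    ((1 / 2 : ℚ) ⊗ₜ Additive.ofMul (Abelianization.of (ULift.up (Multiplicative.ofAdd 1)))))
  have hx' : ((1 : ℚ) ⊗ₜ[ℤ] Additive.ofMul (Abelianization.of (x : Z)) : A Z) =
    (1 / 2 : ℚ) ⊗ₜ Additive.ofMul (Abelianization.of (ULift.up (Multiplicative.ofAdd (1 : ℤ)))) :=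
    hx
  let φ : Z →* Multiplicative ℤ := MulEquiv.ulift.toMonoidHom
  let ψ : Additive (Abelianization Z) →ₗ[ℤ] ℤ :=
    (MonoidHom.toAdditiveLeft (Abelianization.lift φ)).toIntLinearMap
  let m : A Z →ₗ[ℤ] ℚ := TensorProduct.lift (LinearMap.mk₂ ℤ
    (fun (r : ℚ) (v : Additive (Abelianization Z)) => r * (ψ v : ℚ))
    (fun _ _ _ => add_mul _ _ _) (fun c r v => by simp [mul_assoc])
    (fun _ _ _ => by rw [map_add]; push_cast; ring) (fun c r v => by
      rw [map_smul]; simp; ring))
  have h1 := congrArg m hx'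
  have h2 : (1 : ℚ) * (ψ (Additive.ofMul (Abelianization.of (x : Z))) : ℚ) = (1 / 2 : ℚ) *
    (ψ (Additive.ofMul (Abelianization.of (ULift.up (Multiplicative.ofAdd (1 : ℤ))))) : ℚ) := h1
  have h3 : ψ (Additive.ofMul (Abelianization.of (ULift.up (Multiplicative.ofAdd (1 : ℤ))))) = 1 :=
    rfl
  rw [h3, one_mul] at h2
  generalize ψ (Additive.ofMul (Abelianization.of (x : Z))) = k at h2
  have h4 : ((2 * k : ℤ) : ℚ) = ((1 : ℤ) : ℚ) := by push_cast; linarith
  have h5 : 2 * k = 1 := by exact_mod_cast h4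
  omega

/-- There is a localization functor `L` on the category of groups, namely `L G = ℚ ⊗ G_ab`, which
is conditionally flat but is not an epireflection. -/
theorem result : ∃ (L : GrpCat.{u} ⥤ GrpCat.{u}) (η : 𝟭 GrpCat.{u} ⟶ L),
    IsLocalization L η ∧ ConditionallyFlat L ∧ ¬ IsEpireflection L η :=
  ⟨L, η, isLocalization, conditionallyFlat, not_epireflection⟩

end Pool.Agent.Results.MP_52d248_al.Rationalization
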